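import Pool.Agent.Lib.MP_f2780a_gt.FinalB
import Pool.Agent.Lib.MP_f2780a_gt.PAc
import Pool.Agent.Lib.MP_f2780a_gt.PAch
import Pool.Agent.Lib.MP_f2780a_gt.PArc
import Pool.Agent.Lib.MP_f2780a_gt.PArcmin
import Pool.Agent.Lib.MP_f2780a_gt.PArcwin
import Pool.Agent.Lib.MP_f2780a_gt.PAreaS
import Pool.Agent.Lib.MP_f2780a_gt.PBody
import Pool.Agent.Lib.MP_f2780a_gt.PBridge
import Pool.Agent.Lib.MP_f2780a_gt.PCand
import Pool.Agent.Lib.MP_f2780a_gt.PCapb
import Pool.Agent.Lib.MP_f2780a_gt.PCong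
import Pool.Agent.Lib.MP_f2780a_gt.PEv
import Pool.Agent.Lib.MP_f2780a_gt.PExmin
import Pool.Agent.Lib.MP_f2780a_gt.PFin
import Pool.Agent.Lib.MP_f2780a_gt.PFirst
import Pool.Agent.Lib.MP_f2780a_gt.PGaps
import Pool.Agent.Lib.MP_f2780a_gt.PGen
import Pool.Agent.Lib.MP_f2780a_gt.PGenA
import Pool.Agent.Lib.MP_f2780a_gt.PGenB
import Pool.Agent.Lib.MP_f2780a_gt.PHexA
import Pool.Agent.Lib.MP_f2780a_gt.PHexB
import Pool.Agent.Lib.MP_f2780a_gt.PIsotri
import Pool.Agent.Lib.MP_f2780a_gt.PKubota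
import Pool.Agent.Lib.MP_f2780a_gt.PLens
import Pool.Agent.Lib.MP_f2780a_gt.PLensA
import Pool.Agent.Lib.MP_f2780a_gt.PLensC
import Pool.Agent.Lib.MP_f2780a_gt.PMain
import Pool.Agent.Lib.MP_f2780a_gt.PMono
import Pool.Agent.Lib.MP_f2780a_gt.PPal
import Pool.Agent.Lib.MP_f2780a_gt.PPen
import Pool.Agent.Lib.MP_f2780a_gt.PPerimMono
import Pool.Agent.Lib.MP_f2780a_gt.PPerimS
import Pool.Agent.Lib.MP_f2780a_gt.PPlace
import Pool.Agent.Lib.MP_f2780a_gt.PPolyarc
import Pool.Agent.Lib.MP_f2780a_gt.PReul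
import Pool.Agent.Lib.MP_f2780a_gt.PSep
import Pool.Agent.Lib.MP_f2780a_gt.PShape
import Pool.Agent.Lib.MP_f2780a_gt.PSlope
import Pool.Agent.Lib.MP_f2780a_gt.PSmooth
import Pool.Agent.Lib.MP_f2780a_gt.PStab
import Pool.Agent.Lib.MP_f2780a_gt.PTri

/-! The least area of a plane convex figure with perimeter `L` and diameter `D`, and all figures
attaining it, for every admissible pair. -/

set_option autoImplicit false

namespace Pool.Agent.Results.MP_f2780a_gt.LeastArea

open Real Set Pool.Agent.Lib.MP_f2780a_gt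

theorem result (L D : ℝ) (hD : 0 < D) :
    (2 * D < L → L ≤ 3 * D →
      IsLeast (area '' {K | Adm L D K}) ((L - 2 * D) * √(4 * L * D - L ^ 2) / 4) ∧
      ∀ K, (Adm L D K ∧ area K = (L - 2 * D) * √(4 * L * D - L ^ 2) / 4) ↔
        ∃ A B C : ℂ, dist A B = D ∧ dist A C = D ∧ dist B C = L - 2 * D ∧
          K = convexHull ℝ {A, B, C}) ∧
    (3 * D ≤ L → L < π * D → ∃ n : ℕ, 1 ≤ n ∧ per n * D ≤ L ∧ L < per (n + 1) * D) ∧
    (∀ n : ℕ, 1 ≤ n → per n * D ≤ L → L ≤ per (n + 1) * D →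
      (Cand n (L / D)).Finite ∧ ∃ μ, IsLeast (val '' Cand n (L / D)) μ ∧
        IsLeast (area '' {K | Adm L D K}) (D ^ 2 * μ) ∧
        ∀ K, (Adm L D K ∧ area K = D ^ 2 * μ) ↔
          ∃ a ∈ Cand n (L / D), val a = μ ∧ ∃ k : Fin 3 → ℕ, (∀ i, k i ≤ nn (a i)) ∧
            ∃ c φ, K = place c φ D (poly a k)) ∧
    (3 * D ≤ L → L ≤ per 2 * D →
      IsLeast (area '' {K | Adm L D K}) ((2 + √3) * L ^ 2 / 12 - (3 + √3) * D ^ 2 / 2)) ∧
    (L = π * D → IsLeast (area '' {K | Adm L D K}) ((π - √3) / 2 * D ^ 2) ∧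
      ∀ K, (Adm L D K ∧ area K = (π - √3) / 2 * D ^ 2) ↔ ∃ c φ, K = place c φ D reuleaux) := by
  have mono := mono_proof smooth_proof body_proof
  have bridge := bridge_proof smooth_proof body_proof (areaS_proof body_proof)
    (perimS_proof body_proof) perimMono_proof
  have gen := gen_proof genA_proof genB_proof
  have arc := arc_proof exmin_proof (arcmin_proof (arcwin_proof gen ev_proof ac_proof ach_proof)
    gaps_proof ach_proof polyarc_proof) polyarc_proof slope_proof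
  have fin := fin_proof slope_proof
  have main := main_proof (hex_proof hexA_proof (hexB_proof mono)) pen_proof stab_proof arc fin
  have pal := pal_proof mono
  have shape := shape_proof polyarc_proof
  have cand := cand_proof slope_proof fin sep_proof cong_proof
  have lens := lens_proof exmin_proof (lensA_proof gen) (lensC_proof (capb_proof mono) tri_proof)
  refine ⟨fin_tri place_proof (kubota_proof bridge place_proof lens tri_proof)
    (isotri_proof bridge place_proof) hD, fun h1 h2 => ?_,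
    fun n => fin_poly bridge place_proof main pal reul_proof arc shape polyarc_proof cand hD,
    fin_first bridge place_proof main pal reul_proof arc shape polyarc_proof cand first_proof hD,
    fun e => e ▸ fin_reul bridge place_proof main pal reul_proof arc shape fin hD⟩
  obtain ⟨n, h3, h4, h5⟩ := cand.1 (L / D) (by rwa [le_div_iff₀ hD]) (by rwa [div_lt_iff₀ hD])
  exact ⟨n, h3, by rwa [← le_div_iff₀ hD], by rwa [← div_lt_iff₀ hD]⟩

end Pool.Agent.Results.MP_f2780a_gt.LeastArea
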